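import Pool.Agent.N162.CV.Stm

/-!
# CV/RES (helper861 for helper162): the residue theorem for simple poles on a function field
-/

set_option autoImplicit false

open FF Pool.Agent.W603.LV IntermediateField Polynomial

namespace Pool.Agent.N861.CV

open Pool.Agent.N162.CV


variable {Ω E : Type} [Field Ω] [Field E] [Algebra Ω E]

theorem const_ge {v : Place Ω E} {c : Ω} (h : Ge v 1 (algebraMap Ω E c)) : c = 0 := by
  by_contra hc
  rcases h with h | h
  · exact hc ((map_eq_zero _).1 h)
  · rw [v.ord_const hc] at h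
    omega

/-- the trace does not depend on the presentation of the subfield -/
theorem tr_congr {F₁ F₂ : IntermediateField Ω E} (h : F₁ = F₂) (u : E) :
    ((Algebra.trace F₁ E u : F₁) : E) = ((Algebra.trace F₂ E u : F₂) : E) := by
  subst h
  rfl

theorem adjoin_sub (x : E) (c : Ω) : Ω⟮x - algebraMap Ω E c⟯ = Ω⟮x⟯ := by
  apply le_antisymm
  · rw [IntermediateField.adjoin_simple_le_iff]
    exact sub_mem (IntermediateField.mem_adjoin_simple_self Ω x) (IntermediateField.algebraMap_mem _ c)
  · rw [IntermediateField.adjoin_simple_le_iff]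
    have := add_mem (IntermediateField.mem_adjoin_simple_self Ω (x - algebraMap Ω E c))
      (IntermediateField.algebraMap_mem Ω⟮x - algebraMap Ω E c⟯ c)
    rwa [sub_add_cancel] at this

/-- the trace is linear over the subfield -/
theorem tr_mul {F : IntermediateField Ω E} {t : E} (ht : t ∈ F) (u : E) :
    ((Algebra.trace F E (t * u) : F) : E) = t * ((Algebra.trace F E u : F) : E) := by
  have h1 : t * u = (⟨t, ht⟩ : F) • u := rfl
  rw [h1, map_smul]
  rfl

theorem ord_pos_iff {v : Place Ω E} {f : E} (hf : f ≠ 0) : Ge v 1 f ↔ 0 < v.ord f := by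
  constructor
  · intro h
    rcases h with h | h
    · exact (hf h).elim
    · omega
  · intro h
    exact Or.inr (by omega)

theorem ord_eq_zero_of_val {v : Place Ω E} {f : E} {c : Ω} (hc : c ≠ 0)
    (h : Ge v 1 (f - algebraMap Ω E c)) : f ≠ 0 ∧ v.ord f = 0 := by
  have hf : f ≠ 0 := by
    rintro rfl
    apply hc
    have h1 := h.neg
    rw [zero_sub, neg_neg] at h1
    exact const_ge h1
  refine ⟨hf, ?_⟩
  have h0 : Ge v 0 f := by
    have := (h.mono (by norm_num : (0 : ℤ) ≤ 1)).add (Ge.const (P := v) c)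
    rwa [sub_add_cancel] at this
  have h1 : 0 ≤ v.ord f := h0.resolve_left hf
  by_contra h2
  have h3 : Ge v 1 f := Or.inr (by omega)
  apply hc
  have h4 := h3.sub h
  rw [sub_sub_cancel] at h4
  exact const_ge h4

/-- orders of the elements of `Ω(x)` over the point `c` of the line -/
theorem ord_poly {v : Place Ω E} {x : E} {c : Ω} (hx : Transcendental Ω x)
    (hc : 0 < v.ord (x - algebraMap Ω E c)) (P : Polynomial Ω) (hP : P ≠ 0) :
    aeval x P ≠ 0 ∧ v.ord (x - algebraMap Ω E c) ∣ v.ord (aeval x P) := by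
  have hne : aeval x P ≠ 0 := by
    intro h
    exact hx ⟨P, hP, h⟩
  refine ⟨hne, ?_⟩
  obtain ⟨Q, hQ, hQc⟩ := exists_eq_pow_rootMultiplicity_mul_and_not_dvd P hP c
  have hxc : x - algebraMap Ω E c ≠ 0 := by
    intro h
    rw [h, v.ord_zero] at hc
    omega
  have h1 : aeval x P = (x - algebraMap Ω E c) ^ (rootMultiplicity c P) * aeval x Q := by
    conv_lhs => rw [hQ]
    rw [map_mul, map_pow, map_sub, aeval_X, aeval_C]
  have hQ1 : Q.eval c ≠ 0 := by
    intro h
    exact hQc (dvd_iff_isRoot.2 h)
  have hx0 : Ge v 0 x := by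
    have h2 : Ge v 0 (x - algebraMap Ω E c) := Or.inr hc.le
    have := h2.add (Ge.const (P := v) c)
    rwa [sub_add_cancel] at this
  have h2 : Ge v 1 (aeval x Q - algebraMap Ω E (Q.eval c)) := by
    have h3 : X - C c ∣ Q - C (Q.eval c) := by
      rw [dvd_iff_isRoot, IsRoot.def, eval_sub, eval_C, sub_self]
    obtain ⟨T, hT⟩ := h3
    have h4 := congrArg (aeval x) hT
    rw [map_sub, map_mul, map_sub, aeval_X, aeval_C, aeval_C] at h4
    rw [h4]
    have h5 : Ge v 1 (x - algebraMap Ω E c) := Or.inr (by omega)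
    have := h5.mul (ge_aeval v hx0 T)
    simpa using this
  have h3 := (ord_eq_zero_of_val hQ1 h2)
  rw [h1, v.ord_mul (pow_ne_zero _ hxc) h3.1, h3.2, add_zero, v.ord_pow]
  exact Dvd.intro_left _ rfl

theorem ord_dvd {v : Place Ω E} {x : E} {c : Ω} (hx : Transcendental Ω x)
    (hc : 0 < v.ord (x - algebraMap Ω E c)) {g : E} (hg : g ∈ Ω⟮x⟯) :
    v.ord (x - algebraMap Ω E c) ∣ v.ord g := by
  rw [IntermediateField.mem_adjoin_simple_iff] at hg
  obtain ⟨P, Q, rfl⟩ := hg
  by_cases hP : P = 0
  · rw [hP, map_zero, zero_div, v.ord_zero]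
    exact dvd_zero _
  by_cases hQ : Q = 0
  · rw [hQ, map_zero, div_zero, v.ord_zero]
    exact dvd_zero _
  obtain ⟨h1, h2⟩ := ord_poly hx hc P hP
  obtain ⟨h3, h4⟩ := ord_poly hx hc Q hQ
  rw [v.ord_div h1 h3]
  exact dvd_sub h2 h4

variable [IsAlgClosed Ω] [CharZero Ω] [IsFF Ω E]

omit [IsAlgClosed Ω] in
theorem eq_zero_of_reg {f : E} (h : ∀ v : Place Ω E, Ge v 0 f) (v₀ : Place Ω E) (h₀ : Ge v₀ 1 f) :
    f = 0 := by
  by_contra hf
  have h1 : 0 < v₀.ord f := (ord_pos_iff hf).1 h₀
  have ht : Transcendental Ω f := v₀.transcendental_of_ord_ne (by omega)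
  obtain ⟨S, hS, hS2⟩ := poles (k := Ω) (f := f) ht
  have hfin := IsFF.finite (k := Ω) ht
  have h2 : 0 < Module.finrank Ω⟮f⟯ E := Module.finrank_pos
  have : S = ∅ := by
    rw [Finset.eq_empty_iff_forall_notMem]
    intro w hw
    have h3 := (hS w).1 hw
    have h4 := (h w).resolve_left hf
    omega
  rw [this, Finset.sum_empty] at hS2
  omega

omit [IsAlgClosed Ω] in
theorem exists_inf {x : E} (hx : Transcendental Ω x) : ∃ v : Place Ω E, v.ord x < 0 := by
  obtain ⟨S, hS, hS2⟩ := poles (k := Ω) (f := x) hx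
  have hfin := IsFF.finite (k := Ω) hx
  have h2 : 0 < Module.finrank Ω⟮x⟯ E := Module.finrank_pos
  by_contra hc
  push Not at hc
  have : S = ∅ := by
    rw [Finset.eq_empty_iff_forall_notMem]
    intro w hw
    have h3 := (hS w).1 hw
    have h4 := hc w
    omega
  rw [this, Finset.sum_empty] at hS2
  omega

theorem res_ (hTR : StTR) : StRES := by
  intro Ω E _ _ _ _ _ _ x hx u a rho ha hrho hinf
  classical
  have hxc : ∀ c : Ω, x - algebraMap Ω E c ≠ 0 := by
    intro c h
    rw [sub_eq_zero] at h
    apply hx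
    rw [h]
    exact isAlgebraic_algebraMap c
  have hx0 : x ≠ 0 := by
    have := hxc 0
    rwa [map_zero, sub_zero] at this
  have hfin : ∀ v : Place Ω E, ¬ Ge v 0 x → v.ord x < 0 := by
    intro v hv
    by_contra h
    exact hv (Or.inr (by omega))
  have hGe : ∀ (v : Place Ω E) (c : Ω), 0 < v.ord (x - algebraMap Ω E c) → Ge v 0 x ∧ a v = c := by
    intro v c hc
    have h1 : Ge v 1 (x - algebraMap Ω E c) := Or.inr (by omega)
    have h2 : Ge v 0 x := by
      have := (h1.mono (by norm_num : (0 : ℤ) ≤ 1)).add (Ge.const (P := v) c)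
      rwa [sub_add_cancel] at this
    refine ⟨h2, ?_⟩
    have h3 := h1.sub (ha v h2)
    have h4 : x - algebraMap Ω E c - (x - algebraMap Ω E (a v)) = algebraMap Ω E (a v - c) := by
      rw [map_sub]; ring
    rw [h4] at h3
    exact sub_eq_zero.1 (const_ge h3)
  have hpos : ∀ v : Place Ω E, Ge v 0 x → 0 < v.ord (x - algebraMap Ω E (a v)) := by
    intro v hv
    exact (ord_pos_iff (hxc _)).1 (ha v hv)
  -- the trace
  obtain ⟨R, hR⟩ : ∃ R : E, R = ((Algebra.trace Ω⟮x⟯ E u : Ω⟮x⟯) : E) := ⟨_, rfl⟩
  have hRmem : R ∈ Ω⟮x⟯ := by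
    rw [hR]
    exact SetLike.coe_mem _
  have hSc : ∀ c : Ω, ∃ S : Finset (Place Ω E), ∀ v, v ∈ S ↔ 0 < v.ord (x - algebraMap Ω E c) := by
    intro c
    have hf := finite_support (k := Ω) (x - algebraMap Ω E c)
    refine ⟨hf.toFinset.filter (fun v => 0 < v.ord (x - algebraMap Ω E c)), fun v => ?_⟩
    rw [Finset.mem_filter, Set.Finite.mem_toFinset]
    constructor
    · exact fun h => h.2
    · exact fun h => ⟨by show v.ord _ ≠ 0; omega, h⟩
  choose S hS using hSc
  obtain ⟨r, hr⟩ : ∃ r : Ω → Ω, ∀ c, r c = ∑ w ∈ S c, (w.ord (x - algebraMap Ω E c) : Ω) * rho w :=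
    ⟨_, fun _ => rfl⟩
  have hfinv : ∀ v : Place Ω E, Ge v 0 x →
      Ge v 1 ((x - algebraMap Ω E (a v)) * R - algebraMap Ω E (r (a v))) := by
    intro v hv
    have htr : Transcendental Ω (x - algebraMap Ω E (a v)) := by
      exact v.transcendental_of_ord_ne (hpos v hv).ne'
    have h1 := hTR Ω E (x - algebraMap Ω E (a v)) htr ((x - algebraMap Ω E (a v)) * u) rho (by
      intro w hw
      obtain ⟨h2, h3⟩ := hGe w _ hw
      rw [← h3]
      exact hrho w h2) (S (a v)) (hS (a v)) v (hpos v hv)
    rw [tr_congr (adjoin_sub x (a v)), tr_mul (by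
      exact sub_mem (IntermediateField.mem_adjoin_simple_self Ω x)
        (IntermediateField.algebraMap_mem _ _)), ← hR, ← hr] at h1
    exact h1
  have hinfv : ∀ v : Place Ω E, v.ord x < 0 → Ge v 1 (x * R) := by
    intro v hv
    have hv' : 0 < v.ord x⁻¹ := by rw [v.ord_inv]; omega
    obtain ⟨S', hS'⟩ : ∃ S : Finset (Place Ω E), ∀ v, v ∈ S ↔ 0 < v.ord x⁻¹ := by
      have hf := finite_support (k := Ω) x⁻¹
      refine ⟨hf.toFinset.filter (fun v => 0 < v.ord x⁻¹), fun v => ?_⟩
      rw [Finset.mem_filter, Set.Finite.mem_toFinset]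
      constructor
      · exact fun h => h.2
      · exact fun h => ⟨by show v.ord _ ≠ 0; omega, h⟩
    have h1 := hTR Ω E x⁻¹ (v.transcendental_of_ord_ne hv'.ne') (x * u) (fun _ => 0) (by
      intro w hw
      rw [w.ord_inv] at hw
      rw [map_zero, sub_zero]
      exact hinf w (by omega)) S' hS' v hv'
    rw [tr_congr (adjoin_inv x), tr_mul (IntermediateField.mem_adjoin_simple_self Ω x), ← hR] at h1
    simpa using h1
  -- the main step
  have key : ∀ C : Finset Ω, (∀ c, c ∉ C → r c = 0) → R = ∑ c ∈ C, algebraMap Ω E (r c) /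
      (x - algebraMap Ω E c) ∧ ∑ c ∈ C, r c = 0 := by
    intro C hC
    set T := ∑ c ∈ C, algebraMap Ω E (r c) / (x - algebraMap Ω E c) with hT
    have hTmem : T ∈ Ω⟮x⟯ := by
      refine sum_mem fun c _ => ?_
      exact div_mem (IntermediateField.algebraMap_mem _ _)
        (sub_mem (IntermediateField.mem_adjoin_simple_self Ω x) (IntermediateField.algebraMap_mem _ _))
    -- the value of `x T` at infinity
    have hTinf : ∀ v : Place Ω E, v.ord x < 0 → Ge v 1 (x * T - algebraMap Ω E (∑ c ∈ C, r c)) := by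
      intro v hv
      rw [hT, Finset.mul_sum, map_sum, ← Finset.sum_sub_distrib]
      refine Ge.sum _ _ fun c _ => ?_
      have hord : v.ord (x - algebraMap Ω E c) = v.ord x := by
        by_cases hc : c = 0
        · rw [hc, map_zero, sub_zero]
        · rw [sub_eq_add_neg]
          exact (v.ord_add_eq (f := x) (g := -algebraMap Ω E c) hx0 (by
            rw [neg_ne_zero]
            exact (_root_.map_ne_zero _).2 hc) (by
            rw [v.ord_neg, v.ord_const hc]; exact hv)).2
      have e : x * (algebraMap Ω E (r c) / (x - algebraMap Ω E c)) - algebraMap Ω E (r c) =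
          algebraMap Ω E (r c * c) * (x - algebraMap Ω E c)⁻¹ := by
        have := hxc c
        rw [map_mul]
        field_simp
        ring
      rw [e]
      have h1 : Ge v 1 (x - algebraMap Ω E c)⁻¹ := by
        right
        rw [v.ord_inv, hord]; omega
      have := (Ge.const (P := v) (r c * c)).mul h1
      simpa using this
    -- finite places
    have hTfin : ∀ v : Place Ω E, Ge v 0 x →
        Ge v 1 ((x - algebraMap Ω E (a v)) * T - algebraMap Ω E (r (a v))) := by
      intro v hv
      have h0 : ∀ c ∈ C, c ≠ a v → Ge v 1 ((x - algebraMap Ω E (a v)) *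
          (algebraMap Ω E (r c) / (x - algebraMap Ω E c))) := by
        intro c _ hc
        have h1 : Ge v 1 ((x - algebraMap Ω E c) - algebraMap Ω E (a v - c)) := by
          rw [map_sub, sub_sub_sub_cancel_right]
          exact ha v hv
        have h2 := ord_eq_zero_of_val (sub_ne_zero.2 (Ne.symm hc)) h1
        have h3 : Ge v 0 (x - algebraMap Ω E c)⁻¹ := by
          right
          rw [v.ord_inv, h2.2]; norm_num
        have := (ha v hv).mul ((Ge.const (P := v) (r c)).mul h3)
        rw [div_eq_mul_inv]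
        simpa using this
      by_cases hmem : a v ∈ C
      · rw [hT, ← Finset.add_sum_erase _ _ hmem, mul_add, mul_div_cancel₀ _ (hxc _), add_sub_right_comm,
          sub_self, zero_add, Finset.mul_sum]
        refine Ge.sum _ _ fun c hc => ?_
        exact h0 c (Finset.mem_of_mem_erase hc) (Finset.ne_of_mem_erase hc)
      · rw [hC _ hmem, map_zero, sub_zero, hT, Finset.mul_sum]
        refine Ge.sum _ _ fun c hc => ?_
        exact h0 c hc (fun h => hmem (h ▸ hc))
    -- the difference has no poles
    have hmem : R - T ∈ Ω⟮x⟯ := sub_mem hRmem hTmem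
    have hreg : ∀ v : Place Ω E, Ge v 0 (R - T) ∧ (v.ord x < 0 → Ge v 1 (R - T)) := by
      intro v
      by_cases hv : Ge v 0 x
      · refine ⟨?_, fun h => ?_⟩
        · by_cases h0 : R - T = 0
          · exact Or.inl h0
          have h1 := (hfinv v hv).sub (hTfin v hv)
          have e : (x - algebraMap Ω E (a v)) * R - algebraMap Ω E (r (a v)) -
              ((x - algebraMap Ω E (a v)) * T - algebraMap Ω E (r (a v))) =
              (x - algebraMap Ω E (a v)) * (R - T) := by ring
          rw [e] at h1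
          have h2 := h1.resolve_left (mul_ne_zero (hxc _) h0)
          rw [v.ord_mul (hxc _) h0] at h2
          have h3 := hpos v hv
          obtain ⟨m, hm⟩ := ord_dvd hx h3 hmem
          right
          rw [hm] at h2 ⊢
          by_contra h4
          push Not at h4
          have h5 : m < 0 := by
            by_contra h6
            have := mul_nonneg h3.le (not_lt.1 h6)
            omega
          have h6 : v.ord (x - algebraMap Ω E (a v)) * m ≤ v.ord (x - algebraMap Ω E (a v)) * (-1) :=
            mul_le_mul_of_nonneg_left (by omega) h3.le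
          omega
        · exfalso
          have := hv.resolve_left hx0
          omega
      · have hv' := hfin v hv
        have h1 : Ge v 0 (x * (R - T)) := by
          have h2 := ((hinfv v hv').sub (hTinf v hv')).mono (by norm_num : (0 : ℤ) ≤ 1)
          have h3 := h2.sub (Ge.const (P := v) (∑ c ∈ C, r c))
          have e : x * R - (x * T - algebraMap Ω E (∑ c ∈ C, r c)) - algebraMap Ω E (∑ c ∈ C, r c) =
              x * (R - T) := by ring
          rwa [e] at h3
        have h2 := Ge.of_mul hx0 h1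
        exact ⟨h2.mono (by omega), fun _ => h2.mono (by omega)⟩
    obtain ⟨v₀, hv₀⟩ := exists_inf hx
    have hRT : R - T = 0 := eq_zero_of_reg (fun v => (hreg v).1) v₀ ((hreg v₀).2 hv₀)
    refine ⟨sub_eq_zero.1 hRT, ?_⟩
    have h1 := (hinfv v₀ hv₀).sub (hTinf v₀ hv₀)
    rw [sub_eq_zero.1 hRT, sub_sub_cancel] at h1
    exact const_ge h1
  refine ⟨?_, ?_, ?_⟩
  · by_cases hu : u = 0
    · convert Set.finite_empty
      rw [Set.eq_empty_iff_forall_notMem]
      rintro v ⟨hv, hv'⟩
      have h1 := (hrho v hv).neg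
      rw [hu, mul_zero, zero_sub, neg_neg] at h1
      exact hv' (const_ge h1)
    · refine (finite_support (k := Ω) u).subset ?_
      rintro v ⟨hv, hv'⟩
      show v.ord u ≠ 0
      have h1 := (ord_eq_zero_of_val hv' (hrho v hv)).2
      rw [v.ord_mul (hxc _) hu] at h1
      have := hpos v hv
      omega
  · intro Q hQ1 hQ2
    have hrQ : ∀ c, r c = ∑ w ∈ Q with a w = c, (w.ord (x - algebraMap Ω E (a w)) : Ω) * rho w := by
      intro c
      rw [hr]
      have h1 : ∑ w ∈ S c, (w.ord (x - algebraMap Ω E c) : Ω) * rho w =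
          ∑ w ∈ S c with rho w ≠ 0, (w.ord (x - algebraMap Ω E c) : Ω) * rho w := by
        symm
        apply Finset.sum_filter_of_ne
        intro w _ h h'
        exact h (by rw [h', mul_zero])
      have h2 : ∑ w ∈ Q with a w = c, (w.ord (x - algebraMap Ω E (a w)) : Ω) * rho w =
          ∑ w ∈ (Q.filter (fun w => a w = c)).filter (fun w => rho w ≠ 0),
            (w.ord (x - algebraMap Ω E (a w)) : Ω) * rho w := by
        symm
        apply Finset.sum_filter_of_ne
        intro w _ h h'
        exact h (by rw [h', mul_zero])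
      rw [h1, h2]
      refine Finset.sum_congr ?_ ?_
      · ext w
        simp only [Finset.mem_filter, hS]
        constructor
        · rintro ⟨h3, h4⟩
          obtain ⟨h5, h6⟩ := hGe w c h3
          exact ⟨⟨hQ2 w h5 h4, h6⟩, h4⟩
        · rintro ⟨⟨h3, h4⟩, h5⟩
          refine ⟨?_, h5⟩
          rw [← h4]
          exact hpos w (hQ1 w h3)
      · intro w hw
        rw [Finset.mem_filter, Finset.mem_filter] at hw
        rw [hw.1.2]
    have h1 := (key (Q.image a) (by
      intro c hc
      rw [hrQ]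
      refine Finset.sum_eq_zero fun w hw => ?_
      exfalso
      rw [Finset.mem_filter] at hw
      exact hc (Finset.mem_image.2 ⟨w, hw.1, hw.2⟩))).2
    rw [← h1, Finset.sum_congr rfl fun c _ => hrQ c]
    exact (Finset.sum_fiberwise_of_maps_to (fun w hw => Finset.mem_image_of_mem a hw) _).symm
  · intro h0
    have h1 := (key ∅ (by
      intro c _
      rw [hr]
      refine Finset.sum_eq_zero fun w hw => ?_
      rw [h0 w (hGe w c ((hS c w).1 hw)).1, mul_zero])).1
    rw [Finset.sum_empty, hR] at h1
    exact_mod_cast h1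

end Pool.Agent.N861.CV
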